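import Mathlib

/-!
Archimedean part.
-/

set_option autoImplicit false

namespace Pool.Agent.R503.FN

/-- `c ^ p + d ^ p ≥ 2` if `c + d = 2` and `p` is odd -/
lemma two_le_of_add {p : ℕ} (hodd : Odd p) {c d : ℝ} (h : c + d = 2) : 2 ≤ c ^ p + d ^ p := by
  have key : ∀ {c d : ℝ}, d ≤ c → c + d = 2 → 2 ≤ c ^ p + d ^ p := by
    intro c d hle h
    rcases le_or_gt 0 d with hd | hd
    · have h1 : 1 + (p : ℝ) * (c - 1) ≤ (1 + (c - 1)) ^ p := one_add_mul_le_pow (by linarith) p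
      have h2 : 1 + (p : ℝ) * (d - 1) ≤ (1 + (d - 1)) ^ p := one_add_mul_le_pow (by linarith) p
      have e1 : 1 + (c - 1) = c := by ring
      have e2 : 1 + (d - 1) = d := by ring
      rw [e1] at h1
      rw [e2] at h2
      have h3 : (p : ℝ) * (c - 1) + (p : ℝ) * (d - 1) = 0 := by
        rw [← mul_add]
        have : c - 1 + (d - 1) = 0 := by linarith
        rw [this, mul_zero]
      linarith
    · have h1 := pow_add_pow_le (x := -d) (y := 2) (n := p) (by linarith) (by norm_num)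
        hodd.pos.ne'
      have e1 : -d + 2 = c := by linarith
      rw [e1, hodd.neg_pow] at h1
      have h2 : (2 : ℝ) ^ 1 ≤ 2 ^ p := pow_le_pow_right₀ (by norm_num) hodd.pos
      rw [pow_one] at h2
      linarith
  rcases le_total d c with h1 | h1
  · exact key h1 h
  · rw [add_comm]
    exact key h1 (by linarith)

lemma real_sum_le {p : ℕ} (hodd : Odd p) {a b : ℝ} (h : a ^ p + b ^ p = 1) : |a + b| ≤ 2 := by
  have key : ∀ {a b : ℝ}, a ^ p + b ^ p ≤ 1 → a + b ≤ 2 := by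
    intro a b h
    by_contra hc
    push Not at hc
    have h1 : (2 - b) < a := by linarith
    have h2 : (2 - b) ^ p < a ^ p := hodd.strictMono_pow h1
    have h3 := two_le_of_add hodd (c := 2 - b) (d := b) (by ring)
    linarith
  rw [abs_le]
  constructor
  · have h1 : (-a) ^ p + (-b) ^ p ≤ 1 := by
      rw [hodd.neg_pow, hodd.neg_pow]
      linarith
    have := key h1
    linarith
  · exact key h.le

lemma norm_aux {p : ℕ} (h5 : 5 ≤ p) {r s D : ℝ} (hs0 : 0 ≤ s) (hlt : s < r)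
    (hD : 2 ≤ D) (h1 : r ^ p - s ^ p ≤ 1)
    (h2 : D ^ (p - 1) ≤ 4 * r ^ 2 ∨ (5 ≤ D ∧ D ^ (p - 1) ≤ D ^ 2 * (4 * r ^ 2)))
    {a b : ℕ} (ha : D * r ^ 2 = a) (hb : D * s ^ 2 = b) : False := by
  have hr0 : 0 < r := lt_of_le_of_lt hs0 hlt
  have hsq : s ^ 2 < r ^ 2 := pow_lt_pow_left₀ hlt hs0 (by norm_num)
  have hab : (b : ℝ) < a := by
    rw [← ha, ← hb]
    exact mul_lt_mul_of_pos_left hsq (by linarith)
  have hab' : (b : ℝ) + 1 ≤ a := by exact_mod_cast hab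
  have h3 : 1 ≤ D * (r ^ 2 - s ^ 2) := by
    rw [mul_sub, ha, hb]
    linarith
  obtain ⟨q, rfl⟩ : ∃ q, p = q + 5 := ⟨p - 5, by omega⟩
  have e0 : q + 5 - 1 = q + 4 := by omega
  rw [e0] at h2
  have hrq : 0 < r ^ (q + 3) := pow_pos hr0 _
  have h4 : r ^ (q + 3) * (r ^ 2 - s ^ 2) ≤ 1 := by
    have e1 : r ^ (q + 5) = r ^ (q + 3) * r ^ 2 := by rw [← pow_add]
    have e2 : s ^ (q + 5) = s ^ (q + 3) * s ^ 2 := by rw [← pow_add]
    have h6 : s ^ (q + 3) ≤ r ^ (q + 3) := pow_le_pow_left₀ hs0 hlt.le _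
    have h7 : s ^ (q + 3) * s ^ 2 ≤ r ^ (q + 3) * s ^ 2 :=
      mul_le_mul_of_nonneg_right h6 (sq_nonneg _)
    rw [e1, e2] at h1
    have e3 : r ^ (q + 3) * (r ^ 2 - s ^ 2) = r ^ (q + 3) * r ^ 2 - r ^ (q + 3) * s ^ 2 := by ring
    rw [e3]
    linarith
  have h5' : r ^ (q + 3) ≤ D := by
    have h6 : r ^ (q + 3) * 1 ≤ r ^ (q + 3) * (D * (r ^ 2 - s ^ 2)) :=
      mul_le_mul_of_nonneg_left h3 hrq.le
    have h7 : r ^ (q + 3) * (D * (r ^ 2 - s ^ 2)) = D * (r ^ (q + 3) * (r ^ 2 - s ^ 2)) := by ring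
    have h8 : D * (r ^ (q + 3) * (r ^ 2 - s ^ 2)) ≤ D * 1 :=
      mul_le_mul_of_nonneg_left h4 (by linarith)
    linarith
  have hD4 : D ^ 4 ≤ D ^ (q + 4) := pow_le_pow_right₀ (by linarith) (by omega)
  rcases h2 with h2 | ⟨hD5, h2⟩
  · -- `D ^ 4 ≤ 4 r ^ 2`
    have h6 : (D ^ 2) ^ 2 ≤ (2 * r) ^ 2 := by nlinarith
    have h7 : D ^ 2 ≤ 2 * r := (pow_le_pow_iff_left₀ (by positivity) (by positivity)
      (by norm_num)).1 h6
    have h8 : 2 ≤ r := by nlinarith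
    have h9 : D ≤ r := by nlinarith
    have h10 : r ^ 3 ≤ r ^ (q + 3) := pow_le_pow_right₀ (by linarith) (by omega)
    have h11 : r ^ 3 ≤ r := by linarith
    nlinarith [mul_pos hr0 hr0]
  · have hDD : D ^ 4 ≤ D ^ 2 * (4 * r ^ 2) := by linarith
    have h6 : D ^ 2 ≤ (2 * r) ^ 2 := by
      have : D ^ 2 * D ^ 2 ≤ D ^ 2 * (4 * r ^ 2) := by
        have e : D ^ 4 = D ^ 2 * D ^ 2 := by ring
        linarith
      have h7 := le_of_mul_le_mul_left this (by positivity)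
      nlinarith
    have h7 : D ≤ 2 * r := (pow_le_pow_iff_left₀ (by linarith) (by positivity)
      (by norm_num)).1 h6
    have h8 : 5 / 2 ≤ r := by linarith
    have h10 : r ^ 3 ≤ r ^ (q + 3) := pow_le_pow_right₀ (by linarith) (by omega)
    have h11 : r ^ 3 ≤ 2 * r := by linarith
    nlinarith [mul_pos hr0 hr0]

/-- equal absolute values -/
theorem norm_eq {p : ℕ} (h5 : 5 ≤ p) {A B : ℂ} (h : A ^ p + B ^ p = 1) {D : ℝ} (hD : 2 ≤ D)
    (h2 : D ^ (p - 1) ≤ ‖A + B‖ ^ 2 ∨ (5 ≤ D ∧ D ^ (p - 1) ≤ D ^ 2 * ‖A + B‖ ^ 2))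
    {a b : ℕ} (ha : D * ‖A‖ ^ 2 = a) (hb : D * ‖B‖ ^ 2 = b) : ‖A‖ = ‖B‖ := by
  have key : ∀ {A B : ℂ} {a b : ℕ}, A ^ p + B ^ p = 1 →
      (D ^ (p - 1) ≤ ‖A + B‖ ^ 2 ∨ (5 ≤ D ∧ D ^ (p - 1) ≤ D ^ 2 * ‖A + B‖ ^ 2)) →
      D * ‖A‖ ^ 2 = a → D * ‖B‖ ^ 2 = b → ¬ ‖B‖ < ‖A‖ := by
    intro A B a b h h2 ha hb hlt
    have h3 : ‖A‖ ^ p - ‖B‖ ^ p ≤ 1 := by
      have h4 := norm_sub_norm_le (A ^ p) (-(B ^ p))
      rw [sub_neg_eq_add, h, norm_one, norm_neg, norm_pow, norm_pow] at h4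
      exact h4
    have h4 : ‖A + B‖ ^ 2 ≤ 4 * ‖A‖ ^ 2 := by
      have h6 : ‖A + B‖ ≤ 2 * ‖A‖ := by
        have := norm_add_le A B
        linarith
      calc ‖A + B‖ ^ 2 ≤ (2 * ‖A‖) ^ 2 := pow_le_pow_left₀ (norm_nonneg _) h6 2
        _ = _ := by ring
    refine norm_aux h5 (norm_nonneg B) hlt hD h3 ?_ ha hb
    rcases h2 with h2 | ⟨hD5, h2⟩
    · exact Or.inl (h2.trans h4)
    · exact Or.inr ⟨hD5, h2.trans (mul_le_mul_of_nonneg_left h4 (by positivity))⟩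
  apply le_antisymm
  · exact not_lt.1 (key h h2 ha hb)
  · refine not_lt.1 (key (A := B) (B := A) (by rw [add_comm]; exact h) ?_ hb ha)
    rw [add_comm B A]
    exact h2

/-- if `X + Y = 1` and `|X| = |Y|` then `Y` is the conjugate of `X` -/
theorem conj_of_norm {X Y : ℂ} (h : X + Y = 1) (hn : ‖X‖ = ‖Y‖) : Y = (starRingEnd ℂ) X := by
  have h1 : Y = 1 - X := by linear_combination h
  have h2 : Complex.normSq X = Complex.normSq Y := by
    rw [Complex.normSq_eq_norm_sq, Complex.normSq_eq_norm_sq, hn]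
  rw [h1, Complex.normSq_apply, Complex.normSq_apply] at h2
  simp only [Complex.sub_re, Complex.one_re, Complex.sub_im, Complex.one_im] at h2
  rw [h1]
  apply Complex.ext
  · simp only [Complex.sub_re, Complex.one_re, Complex.conj_re]
    linarith
  · simp only [Complex.sub_im, Complex.one_im, Complex.conj_im]
    ring

end Pool.Agent.R503.FN
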