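import Pool.Agent.R503.FN.Main
import Pool.Agent.W7.FH.Un

/-!
Assembly.
-/

set_option autoImplicit false

namespace Pool.Agent.R503.FN

open NumberField IsDedekindDomain Pool.Agent.W7.FH

variable {K : Type} [Field K] [NumberField K]

theorem emb (hK : Module.finrank ℚ K = 2) : ∃ σ τ : K →ₐ[ℚ] ℂ,
    (∀ x : K, ((Algebra.norm ℚ x : ℚ) : ℂ) = σ x * τ x) ∧
    (∀ x : K, ((Algebra.trace ℚ K x : ℚ) : ℂ) = σ x + τ x) ∧
    (((∀ x, τ x = (starRingEnd ℂ) (σ x)) ∧ ∃ w : InfinitePlace K, ¬ w.IsReal) ∨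
      ∃ f g : K →+* ℝ, ∀ x : K, ((Algebra.norm ℚ x : ℚ) : ℝ) = f x * g x) := by
  classical
  have hcard : (Finset.univ : Finset (K →ₐ[ℚ] ℂ)).card = 2 := by
    rw [Finset.card_univ, AlgHom.card, hK]
  obtain ⟨σ, τ, hστ, huniv⟩ := Finset.card_eq_two.1 hcard
  have hN : ∀ x : K, ((Algebra.norm ℚ x : ℚ) : ℂ) = σ x * τ x := by
    intro x
    have := Algebra.norm_eq_prod_embeddings ℚ ℂ x
    rw [huniv, Finset.prod_pair hστ] at this
    exact this
  have hT : ∀ x : K, ((Algebra.trace ℚ K x : ℚ) : ℂ) = σ x + τ x := by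
    intro x
    have := trace_eq_sum_embeddings (K := ℚ) ℂ (x := x)
    rw [huniv, Finset.sum_pair hστ] at this
    exact this
  refine ⟨σ, τ, hN, hT, ?_⟩
  let cj : ℂ →ₐ[ℚ] ℂ := (Complex.conjAe.toAlgHom).restrictScalars ℚ
  have hcj : ∀ z, cj z = (starRingEnd ℂ) z := fun z => rfl
  have hmem : ∀ ρ : K →ₐ[ℚ] ℂ, ρ = σ ∨ ρ = τ := by
    intro ρ
    have : ρ ∈ (Finset.univ : Finset (K →ₐ[ℚ] ℂ)) := Finset.mem_univ _
    rw [huniv, Finset.mem_insert, Finset.mem_singleton] at this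
    exact this
  rcases hmem (cj.comp σ) with hσ | hσ
  · right
    rcases hmem (cj.comp τ) with hτ | hτ
    · exfalso
      apply hστ
      ext x
      have h1 : (starRingEnd ℂ) (τ x) = σ x := by
        rw [← hcj, ← AlgHom.comp_apply, hτ]
      have h2 : (starRingEnd ℂ) (σ x) = σ x := by
        rw [← hcj, ← AlgHom.comp_apply, hσ]
      have h3 : (starRingEnd ℂ) ((starRingEnd ℂ) (τ x)) = τ x := Complex.conj_conj _
      rw [← h3, h1, h2]
    · have hσr : ComplexEmbedding.IsReal (σ : K →+* ℂ) := by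
        rw [ComplexEmbedding.isReal_iff]
        ext x
        have h2 : (starRingEnd ℂ) (σ x) = σ x := by
          rw [← hcj, ← AlgHom.comp_apply, hσ]
        exact h2
      have hτr : ComplexEmbedding.IsReal (τ : K →+* ℂ) := by
        rw [ComplexEmbedding.isReal_iff]
        ext x
        have h2 : (starRingEnd ℂ) (τ x) = τ x := by
          rw [← hcj, ← AlgHom.comp_apply, hτ]
        exact h2
      refine ⟨hσr.embedding, hτr.embedding, ?_⟩
      intro x
      have h1 := hN x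
      have h2 : ((hσr.embedding x : ℝ) : ℂ) = σ x :=
        ComplexEmbedding.IsReal.coe_embedding_apply hσr x
      have h3 : ((hτr.embedding x : ℝ) : ℂ) = τ x :=
        ComplexEmbedding.IsReal.coe_embedding_apply hτr x
      rw [← h2, ← h3] at h1
      exact_mod_cast h1
  · left
    have hc : ∀ x, τ x = (starRingEnd ℂ) (σ x) := by
      intro x
      rw [← hσ, AlgHom.comp_apply, hcj]
    refine ⟨hc, InfinitePlace.mk (σ : K →+* ℂ), ?_⟩
    intro hr
    rw [InfinitePlace.isReal_mk_iff, ComplexEmbedding.isReal_iff] at hr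
    apply hστ
    ext x
    rw [hc]
    have h1 := RingHom.congr_fun hr x
    have h2 : (starRingEnd ℂ) (σ x) = σ x := h1
    rw [h2]

theorem real_one (hK : Module.finrank ℚ K = 2) {p : ℕ} (hp : p.Prime) (h5 : 5 ≤ p) {a b c : K}
    (ha : a ≠ 0) (hb : b ≠ 0) (hc : c ≠ 0) (h : a ^ p + b ^ p + c ^ p = 0)
    (h0 : ∃ v : FinitePlace K, v c < v a) (f g : K →+* ℝ)
    (hfg : ∀ x : K, ((Algebra.norm ℚ x : ℚ) : ℝ) = f x * g x) :
    ∃ v : FinitePlace K, v c < v a ∧ p ∣ nrm v - 1 := by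
  have hodd : Odd p := hp.odd_of_ne_two (by omega)
  obtain ⟨v0, hv0⟩ := h0
  by_contra hcon
  push Not at hcon
  have hval : ∀ v : FinitePlace K, v (-(a / c)) = v a / v c := by
    intro v
    rw [map_neg_eq_map, map_div₀]
  exact real_main hK hp h5 (α := -(a / c)) (β := -(b / c))
    (neg_ne_zero.2 (div_ne_zero ha hc)) (neg_ne_zero.2 (div_ne_zero hb hc)) (by
      rw [hodd.neg_pow, hodd.neg_pow, div_pow, div_pow]
      have hcp : c ^ p ≠ 0 := pow_ne_zero _ hc
      field_simp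
      linear_combination -h) (by
      intro v hv
      rw [hval, one_lt_div (FinitePlace.pos_iff.mpr hc)] at hv
      exact hcon v hv) v0 (by
      rw [hval, one_lt_div (FinitePlace.pos_iff.mpr hc)]
      exact hv0) f g hfg

/-- `w` has a prime divisor of norm `1` modulo `p` -/
def SplitDivisor (p : ℕ) (x y z w : K) : Prop :=
  ∃ v : FinitePlace K, v w < max (max (v x) (v y)) (v z) ∧
    Ideal.absNorm v.maximalIdeal.asIdeal ≡ 1 [MOD p]

lemma split_of {p : ℕ} {x y z w t : K} (k : ℕ)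
    (hmem : ∀ v : FinitePlace K, v t ≤ max (max (v x) (v y)) (v z))
    (h : ∃ v : FinitePlace K, v (w ^ k) < v (t ^ k) ∧ p ∣ nrm v - 1) : SplitDivisor p x y z w := by
  obtain ⟨v, h1, h2⟩ := h
  refine ⟨v, ?_, ?_⟩
  · rw [map_pow, map_pow] at h1
    exact (lt_of_pow_lt_pow_left₀ k (apply_nonneg _ _) h1).trans_le (hmem v)
  · have h3 : 1 ≤ nrm v := (one_lt_nrm v).le
    exact ((Nat.modEq_iff_dvd' h3).2 h2).symm

theorem final (hK : Module.finrank ℚ K = 2) (p n : ℕ) (hp : p.Prime) (h5 : 5 ≤ p) (hn : p ∣ n)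
    (x y z : K) (hx : x ≠ 0) (hy : y ≠ 0) (hz : z ≠ 0) (h : x ^ n + y ^ n = z ^ n)
    (hnt : ¬ ∃ m : ℕ, 0 < m ∧ (x / z) ^ m = 1 ∧ (y / z) ^ m = 1) :
    ((∀ w : InfinitePlace K, w.IsReal) →
      SplitDivisor p x y z x ∧ SplitDivisor p x y z y ∧ SplitDivisor p x y z z) ∧
    ((SplitDivisor p x y z x ∧ SplitDivisor p x y z y) ∨
      (SplitDivisor p x y z y ∧ SplitDivisor p x y z z) ∨
      (SplitDivisor p x y z x ∧ SplitDivisor p x y z z)) ∧
    (¬ SplitDivisor p x y z z → (x / z) ^ (n / p) + (y / z) ^ (n / p) =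
      algebraMap ℚ K (Algebra.trace ℚ K ((x / z) ^ (n / p)))) := by
  have hodd : Odd p := hp.odd_of_ne_two (by omega)
  obtain ⟨k, hk⟩ := hn
  have hk0 : k ≠ 0 := by
    rintro rfl
    rw [mul_zero] at hk
    rw [hk, pow_zero, pow_zero, pow_zero] at h
    norm_num at h
  have hdiv : n / p = k := by rw [hk]; exact Nat.mul_div_cancel_left k hp.pos
  have hn5 : 5 ≤ n := by
    rw [hk]
    calc 5 ≤ p := h5
      _ = p * 1 := (mul_one p).symm
      _ ≤ p * k := Nat.mul_le_mul_left p (Nat.one_le_iff_ne_zero.2 hk0)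
  have hxk := pow_ne_zero k hx
  have hyk := pow_ne_zero k hy
  have hzk : -(z ^ k) ≠ 0 := neg_ne_zero.2 (pow_ne_zero k hz)
  have hF : (x ^ k) ^ p + (y ^ k) ^ p + (-(z ^ k)) ^ p = 0 := by
    rw [hodd.neg_pow, ← pow_mul, ← pow_mul, ← pow_mul, mul_comm k p, ← hk, h]
    ring
  -- no integrality
  have hmain := fun hd => hnt (H276R3.FQ.main hK (by omega : 3 ≤ n) (by omega) h hx hy hz hd)
  have nonint : ∀ {s t : K}, s ≠ 0 → ¬ IsIntegral ℤ (t / s) →
      ∃ v : FinitePlace K, v (s ^ k) < v (t ^ k) := by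
    intro s t hs hi
    by_contra hcon
    push Not at hcon
    apply hi
    apply isIntegral_of_le
    intro v
    have h1 := hcon v
    rw [map_pow, map_pow] at h1
    rw [map_div₀, div_le_one (FinitePlace.pos_iff.mpr hs)]
    exact le_of_pow_le_pow_left₀ hk0 (apply_nonneg _ _) h1
  have ixz : ∃ v : FinitePlace K, v (z ^ k) < v (x ^ k) :=
    nonint hz fun hi => hmain (Or.inl hi)
  have iyz : ∃ v : FinitePlace K, v (z ^ k) < v (y ^ k) :=
    nonint hz fun hi => hmain (Or.inr (Or.inl hi))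
  have iyx : ∃ v : FinitePlace K, v (x ^ k) < v (y ^ k) :=
    nonint hx fun hi => hmain (Or.inr (Or.inr (Or.inl hi)))
  have izx : ∃ v : FinitePlace K, v (x ^ k) < v (z ^ k) :=
    nonint hx fun hi => hmain (Or.inr (Or.inr (Or.inr (Or.inl hi))))
  have ixy : ∃ v : FinitePlace K, v (y ^ k) < v (x ^ k) :=
    nonint hy fun hi => hmain (Or.inr (Or.inr (Or.inr (Or.inr (Or.inl hi)))))
  have izy : ∃ v : FinitePlace K, v (y ^ k) < v (z ^ k) :=
    nonint hy fun hi => hmain (Or.inr (Or.inr (Or.inr (Or.inr (Or.inr hi)))))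
  have lx : ∀ v : FinitePlace K, v x ≤ max (max (v x) (v y)) (v z) :=
    fun v => le_max_of_le_left (le_max_left _ _)
  have ly : ∀ v : FinitePlace K, v y ≤ max (max (v x) (v y)) (v z) :=
    fun v => le_max_of_le_left (le_max_right _ _)
  have lz : ∀ v : FinitePlace K, v z ≤ max (max (v x) (v y)) (v z) := fun v => le_max_right _ _
  have vneg : ∀ v : FinitePlace K, v (-(z ^ k)) = v (z ^ k) := fun v => map_neg_eq_map v _
  obtain ⟨σ, τ, hnm, htr, hcase⟩ := emb hK
  rcases hcase with ⟨hc, w, hw⟩ | ⟨f, g, hfg⟩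
  · -- imaginary
    have good : ∀ {w t : K}, (∀ v : FinitePlace K, v t ≤ max (max (v x) (v y)) (v z)) →
        ¬ SplitDivisor p x y z w → ∀ v : FinitePlace K, v (w ^ k) < v (t ^ k) → ¬ p ∣ nrm v - 1 :=
      fun hm hs v hv hd => hs (split_of k hm ⟨v, hv, hd⟩)
    have pxy : ¬ (¬ SplitDivisor p x y z x ∧ ¬ SplitDivisor p x y z y) := by
      rintro ⟨s1, s2⟩
      -- `(a, b, c) = (y, z, x)`: `c < a` and `a < b`
      obtain ⟨e1, e2⟩ := two_main hK hp h5 (a := y ^ k) (b := -(z ^ k)) (c := x ^ k) hyk hzk hxk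
        (by linear_combination hF) (good ly s1) iyx
        (fun v hv => good lz s2 v (by rwa [vneg] at hv))
        (by obtain ⟨v, hv⟩ := izy; exact ⟨v, by rwa [vneg]⟩) σ τ hnm htr hc
      apply hnt
      have e2' : (z / x) ^ (6 * k) = 1 := by
        have : (-(z ^ k) / x ^ k) ^ 6 = 1 := by
          calc (-(z ^ k) / x ^ k) ^ 6 = ((-(z ^ k) / x ^ k) ^ 3) ^ 2 := by rw [← pow_mul]
            _ = 1 := by rw [e2, one_pow]
        rw [neg_div, Even.neg_pow (by decide), ← div_pow, ← pow_mul] at this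
        rw [mul_comm]
        exact this
      have e1' : (y / x) ^ (6 * k) = 1 := by
        have : (y ^ k / x ^ k) ^ 6 = 1 := by
          calc (y ^ k / x ^ k) ^ 6 = ((y ^ k / x ^ k) ^ 3) ^ 2 := by rw [← pow_mul]
            _ = 1 := by rw [e1, one_pow]
        rw [← div_pow, ← pow_mul] at this
        rw [mul_comm]
        exact this
      refine ⟨6 * k, by omega, ?_, ?_⟩
      · have : x / z = (z / x)⁻¹ := by rw [inv_div]
        rw [this, inv_pow, e2', inv_one]
      · have : y / z = (y / x) / (z / x) := by field_simp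
        rw [this, div_pow, e1', e2', div_one]
    have fin6 : ∀ {s : K}, (s ^ k / -(z ^ k)) ^ 3 = 1 → (s / z) ^ (6 * k) = 1 := by
      intro s hs
      have : (s ^ k / -(z ^ k)) ^ 6 = 1 := by
        calc (s ^ k / -(z ^ k)) ^ 6 = ((s ^ k / -(z ^ k)) ^ 3) ^ 2 := by rw [← pow_mul]
          _ = 1 := by rw [hs, one_pow]
      rw [div_neg, Even.neg_pow (by decide), ← div_pow, ← pow_mul] at this
      rw [mul_comm]
      exact this
    have pzx : ¬ (¬ SplitDivisor p x y z x ∧ ¬ SplitDivisor p x y z z) := by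
      rintro ⟨s1, s2⟩
      obtain ⟨e1, e2⟩ := two_main hK hp h5 (a := x ^ k) (b := y ^ k) (c := -(z ^ k)) hxk hyk hzk
        hF (fun v hv => good lx s2 v (by rwa [vneg] at hv))
        (by obtain ⟨v, hv⟩ := ixz; exact ⟨v, by rwa [vneg]⟩) (good ly s1) iyx σ τ hnm htr hc
      exact hnt ⟨6 * k, by omega, fin6 e1, fin6 e2⟩
    have pzy : ¬ (¬ SplitDivisor p x y z y ∧ ¬ SplitDivisor p x y z z) := by
      rintro ⟨s1, s2⟩
      obtain ⟨e1, e2⟩ := two_main hK hp h5 (a := y ^ k) (b := x ^ k) (c := -(z ^ k)) hyk hxk hzk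
        (by linear_combination hF) (fun v hv => good ly s2 v (by rwa [vneg] at hv))
        (by obtain ⟨v, hv⟩ := iyz; exact ⟨v, by rwa [vneg]⟩) (good lx s1) ixy σ τ hnm htr hc
      exact hnt ⟨6 * k, by omega, fin6 e2, fin6 e1⟩
    refine ⟨fun hr => absurd (hr w) hw, by tauto, fun hs => ?_⟩
    obtain ⟨v0, hv0⟩ := ixz
    have hzk' := pow_ne_zero k hz
    have h1 := complex_main hK hp h5 (α := (x / z) ^ k) (β := (y / z) ^ k)
      (pow_ne_zero k (div_ne_zero hx hz)) (pow_ne_zero k (div_ne_zero hy hz)) (by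
        rw [← pow_mul, ← pow_mul, mul_comm k p, ← hk, div_pow, div_pow, ← add_div, h,
          div_self (pow_ne_zero n hz)]) (by
        intro v hv
        rw [div_pow, map_div₀, one_lt_div (FinitePlace.pos_iff.mpr hzk')] at hv
        exact good lx hs v hv) v0 (by
        rw [div_pow, map_div₀, one_lt_div (FinitePlace.pos_iff.mpr hzk')]
        exact hv0) σ τ hnm htr hc
    rw [hdiv]
    apply σ.toRingHom.injective
    change σ ((x / z) ^ k + (y / z) ^ k) = σ (algebraMap ℚ K (Algebra.trace ℚ K ((x / z) ^ k)))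
    rw [map_add, h1, AlgHom.commutes]
    exact (htr _).symm
  · have r1 := real_one hK hp h5 hyk hzk hxk (by linear_combination hF) iyx f g hfg
    have r2 := real_one hK hp h5 hxk hzk hyk (by linear_combination hF) ixy f g hfg
    have r3 := real_one hK hp h5 hxk hyk hzk hF
      (by obtain ⟨v, hv⟩ := ixz; exact ⟨v, by rwa [vneg]⟩) f g hfg
    have s1 : SplitDivisor p x y z x := split_of k ly r1
    have s2 : SplitDivisor p x y z y := split_of k lx r2
    have s3 : SplitDivisor p x y z z := split_of k lx (by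
      obtain ⟨v, hv, hd⟩ := r3
      exact ⟨v, by rwa [vneg] at hv, hd⟩)
    exact ⟨fun _ => ⟨s1, s2, s3⟩, Or.inl ⟨s1, s2⟩, fun hs => absurd s3 hs⟩

end Pool.Agent.R503.FN
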