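import Pool.Agent.R503.FN.Loc

/-!
Global part: if no prime of norm `1` modulo `p` divides the denominator of `α`, the norm of `α + β` is
large: at least the `(p - 1)`-th power of the norm of the denominator, up to primes above `p`.
-/

set_option autoImplicit false

namespace Pool.Agent.R503.FN

open NumberField IsDedekindDomain Pool.Agent.W7.FH

variable {K : Type} [Field K] [NumberField K]

theorem glob (hK : Module.finrank ℚ K = 2) {p : ℕ} (hp : p.Prime) (h5 : 5 ≤ p) {α β : K}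
    (hα : α ≠ 0) (hβ : β ≠ 0) (h : α ^ p + β ^ p = 1)
    (hN : ∀ v : FinitePlace K, 1 < v α → ¬ p ∣ nrm v - 1) (v0 : FinitePlace K) (hv0 : 1 < v0 α) :
    ∃ D : ℝ, 2 ≤ D ∧
      (D ^ (p - 1) ≤ ((|Algebra.norm ℚ (α + β)| : ℚ) : ℝ) ∨
        (5 ≤ D ∧ D ^ (p - 1) ≤ D ^ 2 * ((|Algebra.norm ℚ (α + β)| : ℚ) : ℝ))) ∧
      (∃ a : ℕ, D * ((|Algebra.norm ℚ α| : ℚ) : ℝ) = a) ∧
      (∃ b : ℕ, D * ((|Algebra.norm ℚ β| : ℚ) : ℝ) = b) := by
  classical
  have hodd : Odd p := hp.odd_of_ne_two (by omega)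
  have hs : α + β ≠ 0 := by
    intro h0
    have h1 : α = -β := by linear_combination h0
    rw [h1, hodd.neg_pow, neg_add_cancel] at h
    exact zero_ne_one h
  have hp0 : (p : K) ≠ 0 := by exact_mod_cast hp.ne_zero
  have fα := FinitePlace.hasFiniteMulSupport hα
  have fβ := FinitePlace.hasFiniteMulSupport hβ
  have fs := FinitePlace.hasFiniteMulSupport hs
  have fp := FinitePlace.hasFiniteMulSupport hp0
  obtain ⟨S, hS⟩ : ∃ S : Finset (FinitePlace K), S = insert v0 ((fα.toFinset ∪ fβ.toFinset) ∪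
    (fs.toFinset ∪ fp.toFinset)) := ⟨_, rfl⟩
  have prodS : ∀ {x : K} (hx : x ≠ 0) (f : (fun v : FinitePlace K => v x).HasFiniteMulSupport),
      f.toFinset ⊆ S → (∏ v ∈ S, v x) = (((|Algebra.norm ℚ x|)⁻¹ : ℚ) : ℝ) := by
    intro x hx f hf
    rw [← FinitePlace.prod_eq_inv_abs_norm hx]
    symm
    apply finprod_eq_prod_of_mulSupport_subset
    intro w hw
    exact Finset.mem_coe.mpr (hf ((Set.Finite.mem_toFinset f).mpr hw))
  have pα := prodS hα fα (by
    rw [hS]; intro w hw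
    exact Finset.mem_insert_of_mem (Finset.mem_union_left _ (Finset.mem_union_left _ hw)))
  have pβ := prodS hβ fβ (by
    rw [hS]; intro w hw
    exact Finset.mem_insert_of_mem (Finset.mem_union_left _ (Finset.mem_union_right _ hw)))
  have ps := prodS hs fs (by
    rw [hS]; intro w hw
    exact Finset.mem_insert_of_mem (Finset.mem_union_right _ (Finset.mem_union_left _ hw)))
  have pp := prodS hp0 fp (by
    rw [hS]; intro w hw
    exact Finset.mem_insert_of_mem (Finset.mem_union_right _ (Finset.mem_union_right _ hw)))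
  have hv0S : v0 ∈ S := by rw [hS]; exact Finset.mem_insert_self _ _
  have npos : ∀ {x : K}, x ≠ 0 → (0 : ℝ) < ((|Algebra.norm ℚ x| : ℚ) : ℝ) := by
    intro x hx
    have : (0 : ℚ) < |Algebra.norm ℚ x| := abs_pos.mpr (Algebra.norm_ne_zero_iff.2 hx)
    exact_mod_cast this
  have hge : ∀ w ∈ S, w α ≤ ∏ v ∈ S, max (v α) 1 := by
    intro w hw
    rw [← Finset.mul_prod_erase S (fun v : FinitePlace K => max (v α) 1) hw]
    have h1 : (1 : ℝ) ≤ ∏ v ∈ S.erase w, max (v α) 1 :=
      Finset.prod_induction (fun v : FinitePlace K => max (v α) 1) (fun t : ℝ => 1 ≤ t)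
        (fun _ _ ha hb => one_le_mul_of_one_le_of_one_le ha hb) le_rfl fun v _ => le_max_right _ _
    have h2 : w α ≤ max (w α) 1 := le_max_left _ _
    have h3 : (0 : ℝ) ≤ max (w α) 1 := le_trans zero_le_one (le_max_right _ _)
    nlinarith
  have int_of : ∀ {x : K}, x ≠ 0 → (∏ v ∈ S, v x) = (((|Algebra.norm ℚ x|)⁻¹ : ℚ) : ℝ) →
      ∃ a : ℕ, (∏ v ∈ S, max (v x) 1) * ((|Algebra.norm ℚ x| : ℚ) : ℝ) = a := by
    intro x hx hpr
    have h1 : ∀ v : FinitePlace K, ∃ m : ℕ, max 1 (v x)⁻¹ = (m : ℝ) := fun v => exists_nat v hx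
    choose m hm using h1
    refine ⟨∏ v ∈ S, m v, ?_⟩
    rw [Nat.cast_prod]
    have h2 : ((|Algebra.norm ℚ x| : ℚ) : ℝ) = ∏ v ∈ S, (v x)⁻¹ := by
      rw [Finset.prod_inv_distrib, hpr, Rat.cast_inv, inv_inv]
    rw [h2, ← Finset.prod_mul_distrib]
    apply Finset.prod_congr rfl
    intro v _
    have hvx : 0 < v x := FinitePlace.pos_iff.mpr hx
    rw [← hm v, max_mul_of_nonneg _ _ (by positivity), mul_inv_cancel₀ hvx.ne', one_mul]
  obtain ⟨D, hD⟩ : ∃ D : ℝ, D = ∏ v ∈ S, max (v α) 1 := ⟨_, rfl⟩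
  have hmaxeq : ∀ v : FinitePlace K, max (v α) 1 = max (v β) 1 := by
    intro v
    rcases le_or_gt (v α) 1 with h1 | h1
    · rw [max_eq_right h1, max_eq_right (le_one_of v hp.pos h h1)]
    · rw [eq_of_one_lt v hp.pos h h1]
  have hDβ : D = ∏ v ∈ S, max (v β) 1 := by
    rw [hD]
    exact Finset.prod_congr rfl fun v _ => hmaxeq v
  have hD2 : 2 ≤ D := by
    have h1 := hge v0 hv0S
    rw [← hD] at h1
    have h2 := nrm_le_of_one_lt v0 hv0
    have h3 : (2 : ℝ) ≤ nrm v0 := by exact_mod_cast one_lt_nrm v0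
    linarith
  -- the main product
  have hloc : ∀ v : FinitePlace K, v (α + β) * ((if 1 < v α then v (p : K) else 1) *
      max (v α) 1 ^ (p - 1)) = 1 := by
    intro v
    by_cases h1 : 1 < v α
    · rw [if_pos h1, max_eq_left h1.le]
      exact local_pole v hK hp h5 h h1 (hN v h1)
    · rw [if_neg h1]
      push Not at h1
      rw [max_eq_right h1, one_pow, mul_one, mul_one]
      exact local_unit v hodd h h1
  obtain ⟨g, hg⟩ : ∃ g : ℝ, g = ∏ v ∈ S, (if 1 < v α then v (p : K) else 1) := ⟨_, rfl⟩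
  have hprod : (((|Algebra.norm ℚ (α + β)|)⁻¹ : ℚ) : ℝ) * (g * D ^ (p - 1)) = 1 := by
    rw [← ps, hg, hD, ← Finset.prod_pow, ← Finset.prod_mul_distrib, ← Finset.prod_mul_distrib]
    exact Finset.prod_eq_one fun v _ => hloc v
  obtain ⟨N, hNd⟩ : ∃ N : ℝ, N = ((|Algebra.norm ℚ (α + β)| : ℚ) : ℝ) := ⟨_, rfl⟩
  have hNpos : 0 < N := by rw [hNd]; exact npos hs
  rw [Rat.cast_inv, ← hNd] at hprod
  have hprod' : g * D ^ (p - 1) = N := by
    field_simp at hprod
    linarith
  refine ⟨D, hD2, ?_, ?_, ?_⟩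
  · rw [← hNd]
    by_cases hex : ∃ v ∈ S, 1 < v α ∧ v (p : K) < 1
    · right
      obtain ⟨v, hvS, hv1, hv2⟩ := hex
      have h1 := hge v hvS
      rw [← hD] at h1
      have h2 := nrm_le_of_one_lt v hv1
      have h3 : (p : ℝ) ≤ nrm v := by exact_mod_cast nrm_ge v hp hv2
      have h4 : (5 : ℝ) ≤ p := by exact_mod_cast h5
      refine ⟨by linarith, ?_⟩
      have hgp : ((p : ℝ) ^ 2)⁻¹ ≤ g := by
        have h6 : |Algebra.norm ℚ (p : K)| = (p : ℚ) ^ 2 := by
          have : (p : K) = algebraMap ℚ K p := by simp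
          rw [this, Algebra.norm_algebraMap, hK, abs_of_nonneg (by positivity)]
        rw [h6] at pp
        push_cast at pp
        rw [← pp, hg]
        apply Finset.prod_le_prod (fun v _ => apply_nonneg _ _)
        intro v _
        split_ifs
        · exact le_rfl
        · exact natCast_le_one v p
      have h7 : 0 < D ^ (p - 1) := pow_pos (by linarith) _
      have h8 : (p : ℝ) ^ 2 ≤ D ^ 2 := pow_le_pow_left₀ (by linarith) (by linarith) 2
      have h9 : ((p : ℝ) ^ 2)⁻¹ * D ^ (p - 1) ≤ N := by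
        rw [← hprod']
        exact mul_le_mul_of_nonneg_right hgp h7.le
      have h10 : D ^ (p - 1) ≤ (p : ℝ) ^ 2 * N := by
        rw [inv_mul_le_iff₀ (by positivity)] at h9
        exact h9
      exact h10.trans (mul_le_mul_of_nonneg_right h8 hNpos.le)
    · left
      push Not at hex
      have hg1 : g = 1 := by
        rw [hg]
        apply Finset.prod_eq_one
        intro v hv
        split_ifs with h1
        · exact le_antisymm (natCast_le_one v p) (hex v hv h1)
        · rfl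
      rw [hg1, one_mul] at hprod'
      exact hprod'.le
  · rw [hD]
    exact int_of hα pα
  · rw [hDβ]
    exact int_of hβ pβ

end Pool.Agent.R503.FN
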