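import Pool.Agent.W7.FH.Fin

/-!
Local part: if `α ^ p + β ^ p = 1`, `v α > 1` and `p` does not divide `N v - 1`, then `v (α + β)` is
as small as possible.
-/

set_option autoImplicit false

namespace Pool.Agent.R503.FN

open NumberField IsDedekindDomain Pool.Agent.W7.FH

variable {K : Type} [Field K] [NumberField K]

lemma exists_unit_quot (v : FinitePlace K) {u : K} (hu : v u = 1) :
    ∃ a b : 𝓞 K, v (a : K) = 1 ∧ v (b : K) = 1 ∧ u * (b : K) = (a : K) := by
  have h1 : v.maximalIdeal.valuation K u ≤ 1 := by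
    have h2 := hu.le
    rw [← FinitePlace.norm_embedding_eq, FinitePlace.norm_embedding,
      HeightOneSpectrum.adicAbv_def] at h2
    have h3 : WithZeroMulInt.toNNReal (HeightOneSpectrum.absNorm_ne_zero v.maximalIdeal)
        (v.maximalIdeal.valuation K u) ≤ 1 := by
      exact_mod_cast h2
    rwa [WithZeroMulInt.toNNReal_le_one_iff
      (HeightOneSpectrum.one_lt_absNorm_nnreal v.maximalIdeal)] at h3
  obtain ⟨a, b, hab⟩ := HeightOneSpectrum.exists_primeCompl_mul_eq_of_integer v.maximalIdeal u h1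
  have hb : v (((b : 𝓞 K)) : K) = 1 := by
    have := (FinitePlace.norm_eq_one_iff_notMem K v.maximalIdeal (b : 𝓞 K)).2 b.2
    rwa [FinitePlace.norm_embedding_eq] at this
  refine ⟨a, b, ?_, hb, hab⟩
  have h4 : v (u * (((b : 𝓞 K)) : K)) = 1 := by rw [map_mul, hu, hb, mul_one]
  rw [← h4]
  exact congrArg v hab.symm

lemma mem_iff (v : FinitePlace K) (x : 𝓞 K) : x ∈ v.maximalIdeal.asIdeal ↔ v (x : K) < 1 := by
  rw [← FinitePlace.norm_lt_one_iff_mem K, FinitePlace.norm_embedding_eq]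

theorem residue_one (v : FinitePlace K) {p : ℕ} (hp : p.Prime) (hN : ¬ p ∣ nrm v - 1) {u : K}
    (hu : v u = 1) (h : v (u ^ p - 1) < 1) : v (u - 1) < 1 := by
  classical
  obtain ⟨a, b, ha, hb, hab⟩ := exists_unit_quot v hu
  obtain ⟨P, hP⟩ : ∃ P, P = v.maximalIdeal.asIdeal := ⟨_, rfl⟩
  haveI hmax : P.IsMaximal := by rw [hP]; exact v.maximalIdeal.isMaximal
  letI : Field (𝓞 K ⧸ P) := Ideal.Quotient.field P
  haveI hfin : Finite (𝓞 K ⧸ P) := by
    rw [← Ideal.absNorm_ne_zero_iff, hP]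
    have := one_lt_nrm v
    unfold nrm at this
    omega
  letI : Fintype (𝓞 K ⧸ P) := Fintype.ofFinite _
  have hcard : Fintype.card (𝓞 K ⧸ P) = nrm v := by
    rw [← Nat.card_eq_fintype_card]
    unfold nrm
    rw [← hP, Ideal.absNorm_apply]
    rfl
  have hb0 : Ideal.Quotient.mk P b ≠ 0 := by
    rw [Ne, Ideal.Quotient.eq_zero_iff_mem, hP, mem_iff, hb]
    exact lt_irrefl _
  have ha0 : Ideal.Quotient.mk P a ≠ 0 := by
    rw [Ne, Ideal.Quotient.eq_zero_iff_mem, hP, mem_iff, ha]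
    exact lt_irrefl _
  have hpw : Ideal.Quotient.mk P a ^ p = Ideal.Quotient.mk P b ^ p := by
    rw [← map_pow, ← map_pow, Ideal.Quotient.eq, hP, mem_iff]
    have e1 : ((a ^ p - b ^ p : 𝓞 K) : K) = (u ^ p - 1) * (b : K) ^ p := by
      have hab' : (algebraMap (𝓞 K) K a) = u * algebraMap (𝓞 K) K b := hab.symm
      change algebraMap (𝓞 K) K (a ^ p - b ^ p) = (u ^ p - 1) * (algebraMap (𝓞 K) K b) ^ p
      rw [map_sub, map_pow, map_pow, hab']
      ring
    rw [e1, map_mul, map_pow, hb, one_pow, mul_one]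
    exact h
  obtain ⟨r, hr⟩ : ∃ r, r = Ideal.Quotient.mk P a / Ideal.Quotient.mk P b := ⟨_, rfl⟩
  have hr0 : r ≠ 0 := by rw [hr]; exact div_ne_zero ha0 hb0
  have hrp : r ^ p = 1 := by
    rw [hr, div_pow, hpw, div_self (pow_ne_zero _ hb0)]
  have hrN : r ^ (nrm v - 1) = 1 := by
    rw [← hcard]
    exact FiniteField.pow_card_sub_one_eq_one r hr0
  have h1 : orderOf r ∣ p := orderOf_dvd_of_pow_eq_one hrp
  have h2 : orderOf r ∣ nrm v - 1 := orderOf_dvd_of_pow_eq_one hrN
  have h3 : orderOf r = 1 := by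
    rcases (Nat.dvd_prime hp).1 h1 with h4 | h4
    · exact h4
    · exact absurd (h4 ▸ h2) hN
  rw [orderOf_eq_one_iff] at h3
  rw [h3] at hr
  have h5 : Ideal.Quotient.mk P a = Ideal.Quotient.mk P b := by
    have := hr.symm
    rwa [div_eq_one_iff_eq hb0] at this
  rw [Ideal.Quotient.eq, hP, mem_iff] at h5
  have e2 : ((a - b : 𝓞 K) : K) = (u - 1) * (b : K) := by
    have hab' : (algebraMap (𝓞 K) K a) = u * algebraMap (𝓞 K) K b := hab.symm
    change algebraMap (𝓞 K) K (a - b) = (u - 1) * (algebraMap (𝓞 K) K b)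
    rw [map_sub, hab']
    ring
  rw [e2, map_mul, hb, mul_one] at h5
  exact h5

lemma sum_le (v : FinitePlace K) {ι : Type} (s : Finset ι) (f : ι → K)
    (h : ∀ i ∈ s, v (f i) ≤ 1) : v (∑ i ∈ s, f i) ≤ 1 := by
  classical
  induction s using Finset.induction_on with
  | empty => simp
  | insert a s ha ih =>
    rw [Finset.sum_insert ha]
    exact (FinitePlace.add_le v _ _).trans
      (max_le (h a (Finset.mem_insert_self _ _)) (ih fun i hi => h i (Finset.mem_insert_of_mem hi)))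

lemma le_one_of (v : FinitePlace K) {p : ℕ} (hp : 0 < p) {α β : K} (h : α ^ p + β ^ p = 1)
    (hv : v α ≤ 1) : v β ≤ 1 := by
  have e : β ^ p = 1 + -(α ^ p) := by linear_combination h
  have h1 : v (β ^ p) ≤ 1 := by
    rw [e]
    refine (FinitePlace.add_le v _ _).trans (max_le (by rw [map_one]) ?_)
    rw [map_neg_eq_map, map_pow]
    exact pow_le_one₀ (apply_nonneg _ _) hv
  rw [map_pow] at h1
  by_contra hc
  push Not at hc
  exact absurd h1 (not_le.mpr (one_lt_pow₀ hc hp.ne'))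

lemma eq_of_one_lt (v : FinitePlace K) {p : ℕ} (hp : 0 < p) {α β : K} (h : α ^ p + β ^ p = 1)
    (hv : 1 < v α) : v β = v α := by
  have e : β ^ p = -(α ^ p) + 1 := by linear_combination h
  have h1 : v (β ^ p) = v (α ^ p) := by
    rw [e, add_eq_of_lt v, map_neg_eq_map]
    rw [map_one, map_neg_eq_map, map_pow]
    exact one_lt_pow₀ hv hp.ne'
  rw [map_pow, map_pow] at h1
  exact (pow_left_inj₀ (apply_nonneg _ _) (apply_nonneg _ _) hp.ne').1 h1

theorem local_unit (v : FinitePlace K) {p : ℕ} (hodd : Odd p) {α β : K}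
    (h : α ^ p + β ^ p = 1) (hv : v α ≤ 1) : v (α + β) = 1 := by
  have hb := le_one_of v hodd.pos h hv
  have h1 : v (α + β) ≤ 1 := (FinitePlace.add_le v _ _).trans (max_le hv hb)
  have h2 := geom_sum₂_mul α (-β) p
  rw [hodd.neg_pow, sub_neg_eq_add, sub_neg_eq_add, h] at h2
  have h3 : v (∑ i ∈ Finset.range p, α ^ i * (-β) ^ (p - 1 - i)) ≤ 1 := by
    apply sum_le
    intro i _
    rw [map_mul, map_pow, map_pow, map_neg_eq_map]
    exact mul_le_one₀ (pow_le_one₀ (apply_nonneg _ _) hv) (pow_nonneg (apply_nonneg _ _) _)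
      (pow_le_one₀ (apply_nonneg _ _) hb)
  have h4 := congrArg v h2
  rw [map_mul, map_one] at h4
  have h5 : (0 : ℝ) ≤ v (α + β) := apply_nonneg _ _
  apply le_antisymm h1
  nlinarith

theorem local_pole (v : FinitePlace K) (hK : Module.finrank ℚ K = 2) {p : ℕ} (hp : p.Prime)
    (h5 : 5 ≤ p) {α β : K} (h : α ^ p + β ^ p = 1) (hv : 1 < v α) (hN : ¬ p ∣ nrm v - 1) :
    v (α + β) * (v (p : K) * v α ^ (p - 1)) = 1 := by
  have hodd : Odd p := hp.odd_of_ne_two (by omega)
  have hb := eq_of_one_lt v hp.pos h hv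
  have hva : 0 < v α := by linarith
  have hβ0 : β ≠ 0 := by
    rintro rfl
    rw [map_zero] at hb
    linarith
  have hvb : 0 < v β := by rw [hb]; exact hva
  have hu : v (-α / β) = 1 := by rw [map_div₀, map_neg_eq_map, hb, div_self hva.ne']
  have e1 : (-α / β) ^ p - 1 = -(1 / β ^ p) := by
    rw [div_pow, hodd.neg_pow]
    field_simp
    linear_combination -h
  have e1' : v ((-α / β) ^ p - 1) = (v β ^ p)⁻¹ := by
    rw [e1, map_neg_eq_map, map_div₀, map_one, map_pow, one_div]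
  have h1 : v ((-α / β) ^ p - 1) < 1 := by
    rw [e1', hb]
    exact inv_lt_one_of_one_lt₀ (one_lt_pow₀ hv hp.ne_zero)
  have h2 := residue_one v hp hN hu h1
  obtain ⟨t, ht⟩ : ∃ t, t = -α / β - 1 := ⟨_, rfl⟩
  rw [← ht] at h2
  have hp0 : (p : K) ≠ 0 := by exact_mod_cast hp.ne_zero
  have htp : v t ^ (p - 1) < v (p : K) := by
    rcases (natCast_le_one v p).lt_or_eq with h3 | h3
    · have h4 := le_inv_nrm v h2
      have h6 := nrm_ge v hp h3
      have h7 := prime_ge v (p := p) hp.pos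
      rw [hK] at h7
      refine lt_of_lt_of_le ?_ h7
      have hpr : (5 : ℝ) ≤ p := by exact_mod_cast h5
      have h8 : v t ≤ ((p : ℝ))⁻¹ := by
        refine h4.trans ?_
        apply inv_anti₀ (by linarith)
        exact_mod_cast h6
      calc v t ^ (p - 1) ≤ (((p : ℝ))⁻¹) ^ (p - 1) := pow_le_pow_left₀ (apply_nonneg _ _) h8 _
        _ ≤ (((p : ℝ))⁻¹) ^ 3 := by
            apply pow_le_pow_of_le_one (by positivity) _ (by omega)
            apply inv_le_one_of_one_le₀
            linarith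
        _ < (((p : ℝ)) ^ 2)⁻¹ := by
            rw [inv_pow]
            apply inv_strictAnti₀ (by positivity)
            exact pow_lt_pow_right₀ (by linarith) (by norm_num)
    · rw [h3]
      exact pow_lt_one₀ (apply_nonneg _ _) h2 (by omega)
  have h9 := one_add_pow v hp h2 htp
  have e2 : 1 + t = -α / β := by rw [ht]; ring
  rw [e2, e1'] at h9
  have e3 : t = -((α + β) / β) := by
    rw [ht]
    field_simp
    ring
  have e4 : v t = v (α + β) / v β := by rw [e3, map_neg_eq_map, map_div₀]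
  rw [e4, hb] at h9
  have e5 : v α ^ p = v α ^ (p - 1) * v α := by
    rw [← pow_succ]
    congr 1
    omega
  rw [e5] at h9
  have h10 : 0 < v α ^ (p - 1) := pow_pos hva _
  have h11 : v (α + β) * (v (p : K) * v α ^ (p - 1)) =
      (v (p : K) * (v (α + β) / v α)) * (v α ^ (p - 1) * v α) := by
    field_simp
  rw [h11, ← h9]
  exact inv_mul_cancel₀ (by positivity)

/-- the value group -/
lemma exists_zpow (v : FinitePlace K) {t : K} (ht : t ≠ 0) :
    ∃ k : ℤ, v t = ((nrm v : ℕ) : ℝ) ^ k := by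
  have h1 := FinitePlace.norm_embedding' v.maximalIdeal t
  rw [FinitePlace.norm_embedding_eq] at h1
  have hv : v.maximalIdeal.valuation K t ≠ 0 := (Valuation.ne_zero_iff _).mpr ht
  rw [WithZeroMulInt.toNNReal_neg_apply _ hv] at h1
  refine ⟨Multiplicative.toAdd (WithZero.unzero hv), ?_⟩
  rw [h1]
  push_cast
  rfl

lemma exists_nat (v : FinitePlace K) {t : K} (ht : t ≠ 0) :
    ∃ m : ℕ, max 1 (v t)⁻¹ = (m : ℝ) := by
  obtain ⟨k, hk⟩ := exists_zpow v ht
  have hN := one_lt_nrm' v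
  rcases le_total 0 k with h | h
  · refine ⟨1, ?_⟩
    have h1 : 1 ≤ v t := by rw [hk]; exact one_le_zpow₀ hN.le h
    rw [Nat.cast_one]
    exact max_eq_left (inv_le_one_of_one_le₀ h1)
  · obtain ⟨j, hj⟩ : ∃ j : ℕ, k = -(j : ℤ) := ⟨k.natAbs, by omega⟩
    refine ⟨nrm v ^ j, ?_⟩
    have h1 : (v t)⁻¹ = ((nrm v : ℕ) : ℝ) ^ j := by
      rw [hk, hj, zpow_neg, inv_inv, zpow_natCast]
    rw [h1]
    push_cast
    exact max_eq_right (one_le_pow₀ hN.le)

lemma nrm_le_of_one_lt (v : FinitePlace K) {t : K} (h : 1 < v t) : (nrm v : ℝ) ≤ v t := by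
  have ht : t ≠ 0 := by
    rintro rfl
    rw [map_zero] at h
    linarith
  have h1 : v (t⁻¹) < 1 := by
    rw [map_inv₀]
    exact inv_lt_one_of_one_lt₀ h
  have h2 := le_inv_nrm v h1
  rw [map_inv₀] at h2
  have hN := one_lt_nrm' v
  exact (inv_le_inv₀ (by linarith) (by linarith)).1 h2

end Pool.Agent.R503.FN
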