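import Pool.Agent.R503.FN.Glob
import Pool.Agent.R503.FN.Arch
import Pool.Agent.H276R3.FQ.Main

/-!
Fermat's equation over quadratic fields: prime divisors of norm `1` modulo `p` of the solutions.
-/

set_option autoImplicit false

namespace Pool.Agent.R503.FN

open NumberField IsDedekindDomain Pool.Agent.W7.FH

variable {K : Type} [Field K] [NumberField K]

/-- `x ^ p = 1` has only the solution `1` in a quadratic field, `p ≥ 5` prime -/
lemma root_one (hK : Module.finrank ℚ K = 2) {p : ℕ} (hp : p.Prime) (h5 : 5 ≤ p) {η : K}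
    (h : η ^ p = 1) : η = 1 := by
  have h1 : orderOf η ∣ p := orderOf_dvd_of_pow_eq_one h
  rcases (Nat.dvd_prime hp).1 h1 with h2 | h2
  · exact orderOf_eq_one_iff.1 h2
  · exfalso
    have hη : IsPrimitiveRoot η p := by
      rw [← h2]
      exact IsPrimitiveRoot.orderOf η
    have h3 := IsPrimitiveRoot.lcm_totient_le_finrank (K := ℚ) hη hη (by
      rw [Nat.lcm_self]
      exact Polynomial.cyclotomic.irreducible_rat hp.pos)
    rw [Nat.lcm_self, Nat.totient_prime hp, hK] at h3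
    omega

theorem real_main (hK : Module.finrank ℚ K = 2) {p : ℕ} (hp : p.Prime) (h5 : 5 ≤ p) {α β : K}
    (hα : α ≠ 0) (hβ : β ≠ 0) (h : α ^ p + β ^ p = 1)
    (hN : ∀ v : FinitePlace K, 1 < v α → ¬ p ∣ nrm v - 1) (v0 : FinitePlace K) (hv0 : 1 < v0 α)
    (f g : K →+* ℝ) (hfg : ∀ x : K, ((Algebra.norm ℚ x : ℚ) : ℝ) = f x * g x) : False := by
  have hodd : Odd p := hp.odd_of_ne_two (by omega)
  obtain ⟨D, hD2, hD, -, -⟩ := glob hK hp h5 hα hβ h hN v0 hv0
  have h1 : ((|Algebra.norm ℚ (α + β)| : ℚ) : ℝ) ≤ 4 := by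
    rw [Rat.cast_abs, hfg, abs_mul]
    have hf : |f (α + β)| ≤ 2 := by
      rw [map_add]
      apply real_sum_le hodd
      rw [← map_pow, ← map_pow, ← map_add, h, map_one]
    have hg : |g (α + β)| ≤ 2 := by
      rw [map_add]
      apply real_sum_le hodd
      rw [← map_pow, ← map_pow, ← map_add, h, map_one]
    calc |f (α + β)| * |g (α + β)| ≤ 2 * 2 := mul_le_mul hf hg (abs_nonneg _) (by norm_num)
      _ = 4 := by norm_num
  have hD4 : D ^ 4 ≤ D ^ (p - 1) := pow_le_pow_right₀ (by linarith) (by omega)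
  have hD16 : (2 : ℝ) ^ 4 ≤ D ^ 4 := pow_le_pow_left₀ (by norm_num) hD2 4
  rcases hD with h2 | ⟨h5', h2⟩
  · have : (2 : ℝ) ^ 4 ≤ 4 := by linarith
    norm_num at this
  · have h3 : D ^ 2 * ((|Algebra.norm ℚ (α + β)| : ℚ) : ℝ) ≤ D ^ 2 * 4 :=
      mul_le_mul_of_nonneg_left h1 (by positivity)
    have h4 : D ^ 2 * D ^ 2 ≤ D ^ 2 * 4 := by
      have e : D ^ 4 = D ^ 2 * D ^ 2 := by ring
      linarith
    have h6 := le_of_mul_le_mul_left h4 (by positivity)
    nlinarith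

theorem complex_main (hK : Module.finrank ℚ K = 2) {p : ℕ} (hp : p.Prime) (h5 : 5 ≤ p) {α β : K}
    (hα : α ≠ 0) (hβ : β ≠ 0) (h : α ^ p + β ^ p = 1)
    (hN : ∀ v : FinitePlace K, 1 < v α → ¬ p ∣ nrm v - 1) (v0 : FinitePlace K) (hv0 : 1 < v0 α)
    (σ τ : K →ₐ[ℚ] ℂ) (hn : ∀ x : K, ((Algebra.norm ℚ x : ℚ) : ℂ) = σ x * τ x)
    (ht : ∀ x : K, ((Algebra.trace ℚ K x : ℚ) : ℂ) = σ x + τ x)
    (hc : ∀ x, τ x = (starRingEnd ℂ) (σ x)) : σ β = τ α := by
  obtain ⟨D, hD2, hD, ⟨a, ha⟩, ⟨b, hb⟩⟩ := glob hK hp h5 hα hβ h hN v0 hv0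
  have hsq : ∀ x : K, ((|Algebra.norm ℚ x| : ℚ) : ℝ) = ‖σ x‖ ^ 2 := by
    intro x
    have h2 := congrArg norm (hn x)
    rw [norm_mul, hc, Complex.norm_conj, Complex.norm_ratCast] at h2
    rw [Rat.cast_abs, h2]
    ring
  rw [hsq] at ha hb
  rw [hsq, map_add] at hD
  have hσ : σ α ^ p + σ β ^ p = 1 := by rw [← map_pow, ← map_pow, ← map_add, h, map_one]
  have hne := norm_eq h5 hσ hD2 hD ha hb
  have h1 := conj_of_norm hσ (by rw [norm_pow, norm_pow, hne])
  rw [map_pow, ← hc] at h1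
  obtain ⟨α', hα'⟩ : ∃ t : K, t = algebraMap ℚ K (Algebra.trace ℚ K α) - α := ⟨_, rfl⟩
  have e1 : σ α' = τ α := by
    rw [hα', map_sub, AlgHom.commutes]
    have : (algebraMap ℚ ℂ) (Algebra.trace ℚ K α) = σ α + τ α := ht α
    rw [this]
    ring
  rw [← e1, ← map_pow, ← map_pow] at h1
  have h2 : β ^ p = α' ^ p := σ.toRingHom.injective h1
  have hα'0 : α' ≠ 0 := by
    rintro h0
    rw [h0, zero_pow hp.ne_zero] at h2
    exact hβ ((pow_eq_zero_iff hp.ne_zero).1 h2)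
  have h3 : β / α' = 1 := root_one hK hp h5 (by
    rw [div_pow, h2, div_self (pow_ne_zero _ hα'0)])
  rw [div_eq_one_iff_eq hα'0] at h3
  rw [h3, e1]

/-- two of the three conditions: only trivial solutions -/
theorem two_main (hK : Module.finrank ℚ K = 2) {p : ℕ} (hp : p.Prime) (h5 : 5 ≤ p) {a b c : K}
    (ha : a ≠ 0) (hb : b ≠ 0) (hc : c ≠ 0) (h : a ^ p + b ^ p + c ^ p = 0)
    (hN1 : ∀ v : FinitePlace K, v c < v a → ¬ p ∣ nrm v - 1) (h01 : ∃ v : FinitePlace K, v c < v a)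
    (hN2 : ∀ v : FinitePlace K, v a < v b → ¬ p ∣ nrm v - 1) (h02 : ∃ v : FinitePlace K, v a < v b)
    (σ τ : K →ₐ[ℚ] ℂ) (hn : ∀ x : K, ((Algebra.norm ℚ x : ℚ) : ℂ) = σ x * τ x)
    (ht : ∀ x : K, ((Algebra.trace ℚ K x : ℚ) : ℂ) = σ x + τ x)
    (hcj : ∀ x, τ x = (starRingEnd ℂ) (σ x)) : (a / c) ^ 3 = 1 ∧ (b / c) ^ 3 = 1 := by
  have hodd : Odd p := hp.odd_of_ne_two (by omega)
  have one : ∀ {a b c : K}, a ≠ 0 → b ≠ 0 → c ≠ 0 → a ^ p + b ^ p + c ^ p = 0 →
      (∀ v : FinitePlace K, v c < v a → ¬ p ∣ nrm v - 1) → (∃ v : FinitePlace K, v c < v a) →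
      σ (b / c) = τ (a / c) := by
    intro a b c ha hb hc h hN h0
    obtain ⟨v0, hv0⟩ := h0
    have hval : ∀ v : FinitePlace K, v (-(a / c)) = v a / v c := by
      intro v
      rw [map_neg_eq_map, map_div₀]
    have h1 := complex_main hK hp h5 (α := -(a / c)) (β := -(b / c))
      (neg_ne_zero.2 (div_ne_zero ha hc)) (neg_ne_zero.2 (div_ne_zero hb hc)) (by
        rw [hodd.neg_pow, hodd.neg_pow, div_pow, div_pow]
        have hcp : c ^ p ≠ 0 := pow_ne_zero _ hc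
        field_simp
        linear_combination -h) (by
        intro v hv
        rw [hval, one_lt_div (FinitePlace.pos_iff.mpr hc)] at hv
        exact hN v hv) v0 (by
        rw [hval, one_lt_div (FinitePlace.pos_iff.mpr hc)]
        exact hv0) σ τ hn ht hcj
    rw [map_neg, map_neg] at h1
    exact neg_injective h1
  have h1 := one ha hb hc h hN1 h01
  have h2 := one (a := b) (b := c) (c := a) hb hc ha (by linear_combination h) hN2 h02
  -- `w = σ (a / c)`
  obtain ⟨w, hw⟩ : ∃ w, w = σ (a / c) := ⟨_, rfl⟩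
  have hw0 : w ≠ 0 := by
    rw [hw]
    exact (map_ne_zero _).2 (div_ne_zero ha hc)
  have hcw0 : (starRingEnd ℂ) w ≠ 0 := (map_ne_zero _).2 hw0
  have e1 : σ (b / c) = (starRingEnd ℂ) w := by rw [h1, hcj, hw]
  have e2 : σ (c / a) = w⁻¹ := by
    rw [hw, ← map_inv₀, inv_div]
  have e3 : σ (b / a) = (starRingEnd ℂ) w / w := by
    have : b / a = (b / c) / (a / c) := by field_simp
    rw [this, map_div₀, e1, hw]
  have e4 : τ (b / a) = w / (starRingEnd ℂ) w := by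
    rw [hcj, e3, map_div₀, Complex.conj_conj]
  rw [e2, e4] at h2
  -- `conj w = w ^ 2`
  have h3 : (starRingEnd ℂ) w = w ^ 2 := by
    field_simp at h2
    linear_combination h2
  have h4 : w = ((starRingEnd ℂ) w) ^ 2 := by
    have := congrArg (starRingEnd ℂ) h3
    rw [Complex.conj_conj, map_pow] at this
    exact this
  have h5' : w ^ 3 = 1 := by
    have h6 : w = w * w ^ 3 := by
      rw [h3] at h4
      calc w = (w ^ 2) ^ 2 := h4
        _ = _ := by ring
    have h7 : w * (w ^ 3 - 1) = 0 := by linear_combination -h6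
    rcases mul_eq_zero.1 h7 with h8 | h8
    · exact absurd h8 hw0
    · linear_combination h8
  constructor
  · apply σ.toRingHom.injective
    change σ ((a / c) ^ 3) = σ 1
    rw [map_pow, map_one, ← hw, h5']
  · apply σ.toRingHom.injective
    change σ ((b / c) ^ 3) = σ 1
    rw [map_pow, map_one, e1, h3, ← pow_mul, mul_comm, pow_mul, h5', one_pow]

end Pool.Agent.R503.FN
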